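import Pool.Agent.Helper57.MT.Goals
import Pool.Agent.Helper18.MC.LN

/-!
# Packet MC2-DV2 (MP_69be96_nt): all scales up to the record, with explicit dependence on `k`
-/

set_option autoImplicit false

open Finset Filter Topology

open scoped Classical

namespace Pool.Agent.Helper30.MT

open Pool.Agent.Helper88.CR (Rec)
open Pool.Agent.Helper57.MT
open Pool.Agent.Helper18.MC (growth)

/-- the set `{4 i² d : i < K}` -/
noncomputable def HS (K d : ℕ) : Finset ℕ := (range K).image (fun i => 4 * i ^ 2 * d)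

lemma HS_card {K d : ℕ} (hd : 0 < d) : (HS K d).card = K := by
  unfold HS
  rw [card_image_of_injective, card_range]
  intro a b hab
  have h1 : 4 * a ^ 2 * d = 4 * b ^ 2 * d := hab
  have h2 := Nat.eq_of_mul_eq_mul_right hd h1
  have h3 : a ^ 2 = b ^ 2 := by omega
  exact Nat.pow_left_injective (by norm_num : (2 : ℕ) ≠ 0) h3

lemma HS_dvd {K d h : ℕ} (hh : h ∈ HS K d) : d ∣ h := by
  obtain ⟨i, -, rfl⟩ := mem_image.1 hh
  exact Dvd.intro_left _ rfl

lemma HS_le {K d h : ℕ} (hh : h ∈ HS K d) : h ≤ 4 * K ^ 2 * d := by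
  obtain ⟨i, hi, rfl⟩ := mem_image.1 hh
  have := (mem_range.1 hi).le
  gcongr

lemma HS_adm {K d : ℕ} (l : ℕ) (hl : l.Prime) : ∃ a : ℕ, ∀ h ∈ HS K d, ¬ h ≡ a [MOD l] := by
  by_cases hld : l ∣ 2 * d
  · refine ⟨1, fun h hh hc => ?_⟩
    obtain ⟨i, -, rfl⟩ := mem_image.1 hh
    have h1 : l ∣ 4 * i ^ 2 * d := by
      have : 4 * i ^ 2 * d = 2 * i ^ 2 * (2 * d) := by ring
      rw [this]
      exact hld.mul_left _
    have h2 : 0 ≡ 1 [MOD l] := ((Nat.modEq_zero_iff_dvd.2 h1).symm).trans hc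
    have h3 : l ∣ 1 - 0 := (Nat.modEq_iff_dvd' (by omega)).1 h2
    have h4 := hl.two_le
    have h5 := Nat.le_of_dvd (by omega) h3
    omega
  · have hfact : Fact l.Prime := ⟨hl⟩
    have hl2 : l ≠ 2 := by
      rintro rfl
      exact hld (Dvd.intro d rfl)
    have hdu : (d : ZMod l) ≠ 0 := by
      intro h0
      rw [ZMod.natCast_eq_zero_iff] at h0
      exact hld (h0.mul_left 2)
    obtain ⟨r, hr⟩ := FiniteField.exists_nonsquare (F := ZMod l) (by rwa [ZMod.ringChar_zmod_n])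
    refine ⟨((d : ZMod l) * r).val, fun h hh hc => ?_⟩
    obtain ⟨i, -, rfl⟩ := mem_image.1 hh
    have h1 := (ZMod.natCast_eq_natCast_iff _ _ l).2 hc
    rw [ZMod.natCast_val, ZMod.cast_id', id] at h1
    push_cast at h1
    have h2 : (d : ZMod l) * ((2 * i) * (2 * i)) = d * r := by
      rw [← h1]
      ring
    exact hr ⟨2 * i, (mul_left_cancel₀ hdu h2).symm⟩

/-- the primes of a cluster -/
lemma clus {m k : ℕ} {D : ℝ} {H : Finset ℕ} (hHD : ∀ h ∈ H, (h : ℝ) ≤ D)
    (hq : ∀ q : ℕ, q.Prime → m ≤ q → (q : ℝ) ≤ m + D → ∃ h ∈ H, q = m + h)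
    (hc : k < (H.filter (fun h => (m + h).Prime)).card) :
    ∃ h ∈ H, ∃ n, Nat.nth Nat.Prime n = m + h ∧
      ∀ i ≤ k, ∃ h' ∈ H, Nat.nth Nat.Prime (n + i) = m + h' := by
  set F := H.filter (fun h => (m + h).Prime) with hF
  have hne : F.Nonempty := card_pos.1 (by omega)
  set h := F.min' hne with hh
  set g := F.max' hne with hg
  have hhF : h ∈ F := min'_mem _ _
  have hgF : g ∈ F := max'_mem _ _
  have hp : (m + h).Prime := (mem_filter.1 hhF).2
  have hgp : (m + g).Prime := (mem_filter.1 hgF).2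
  refine ⟨h, (mem_filter.1 hhF).1, Nat.count Nat.Prime (m + h), Nat.nth_count hp, ?_⟩
  have e1 : Nat.nth Nat.Prime (Nat.count Nat.Prime (m + h)) = m + h := Nat.nth_count hp
  -- the number of primes up to `m + g`
  have hcount : Nat.count Nat.Prime (m + h) + F.card ≤ Nat.count Nat.Prime (m + g + 1) := by
    rw [Nat.count_eq_card_filter_range, Nat.count_eq_card_filter_range]
    have hinj : (F.image (fun t => m + t)).card = F.card :=
      card_image_of_injective _ (add_right_injective m)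
    rw [← hinj, ← card_union_of_disjoint]
    · apply card_le_card
      intro q hqq
      rw [mem_union, mem_filter, mem_range, mem_image] at hqq
      rw [mem_filter, mem_range]
      rcases hqq with ⟨h1, h2⟩ | ⟨t, ht, rfl⟩
      · have := F.min'_le g hgF
        exact ⟨by omega, h2⟩
      · have := F.le_max' t ht
        exact ⟨by omega, (mem_filter.1 ht).2⟩
    · rw [Finset.disjoint_left]
      intro q h1 h2
      rw [mem_filter, mem_range] at h1
      obtain ⟨t, ht, rfl⟩ := mem_image.1 h2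
      have := F.min'_le t ht
      omega
  have hlast : Nat.nth Nat.Prime (Nat.count Nat.Prime (m + h) + k) < m + g + 1 :=
    Nat.nth_lt_of_lt_count (by omega)
  intro i hi
  have hmono : Nat.nth Nat.Prime (Nat.count Nat.Prime (m + h) + i) ≤
      Nat.nth Nat.Prime (Nat.count Nat.Prime (m + h) + k) :=
    (Nat.nth_le_nth Nat.infinite_setOfPred_prime).2 (by omega)
  have hmono0 : m + h ≤ Nat.nth Nat.Prime (Nat.count Nat.Prime (m + h) + i) := by
    rw [← e1, Nat.count_nth_of_infinite Nat.infinite_setOfPred_prime]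
    exact (Nat.nth_le_nth Nat.infinite_setOfPred_prime).2 (by omega)
  refine hq _ (Nat.nth_mem_of_infinite Nat.infinite_setOfPred_prime _) (by omega) ?_
  have h1 : ((Nat.nth Nat.Prime (Nat.count Nat.Prime (m + h) + i) : ℕ) : ℝ) ≤ ((m + g : ℕ) : ℝ) := by
    exact_mod_cast (by omega)
  have h2 := hHD g (mem_filter.1 hgF).1
  push_cast at h1
  linarith

theorem dv2 (hMM : StmtMM02) : StmtDV2 := by
  obtain ⟨c₀, hc₀, hMM⟩ := hMM
  set C : ℝ := max (64 * Real.exp (2 / c₀)) (2 / c₀) with hC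
  have hC1 : 64 * Real.exp (2 / c₀) ≤ C := le_max_left _ _
  have hC2 : 2 / c₀ ≤ C := le_max_right _ _
  have hC0 : 0 < C := lt_of_lt_of_le (by positivity) hC1
  refine ⟨c₀ / C, C, by positivity, fun k => ?_⟩
  set K : ℕ := ⌈Real.exp ((k + 1) / c₀)⌉₊ + 2 with hK
  have hK1 : 1 ≤ K := by omega
  have hKlow : Real.exp ((k + 1) / c₀) ≤ K := by
    have := Nat.le_ceil (Real.exp ((k + 1) / c₀))
    rw [hK]
    push_cast
    linarith
  have hKup : (K : ℝ) ≤ 4 * Real.exp ((k + 1) / c₀) := by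
    have h1 := Nat.ceil_lt_add_one (Real.exp_pos ((k + 1) / c₀)).le
    have h2 : 1 ≤ Real.exp ((k + 1) / c₀) := Real.one_le_exp (by positivity)
    rw [hK]
    push_cast
    linarith
  have hK0 : (0 : ℝ) < K := by exact_mod_cast hK1
  have hlogK : (k : ℝ) + 1 ≤ c₀ * Real.log K := by
    have h1 : (k + 1) / c₀ ≤ Real.log K := by
      rw [Real.le_log_iff_exp_le hK0]
      exact hKlow
    rw [div_le_iff₀ hc₀] at h1
    linarith
  have hKC : 4 * (K : ℝ) ^ 2 ≤ C * Real.exp (C * k) := by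
    have h1 : (K : ℝ) ^ 2 ≤ (4 * Real.exp ((k + 1) / c₀)) ^ 2 := pow_le_pow_left₀ hK0.le hKup 2
    have h2 : (4 * Real.exp ((k + 1) / c₀)) ^ 2 = 16 * (Real.exp (2 / c₀) * Real.exp (2 / c₀ * k)) := by
      rw [mul_pow, ← Real.exp_add, ← Real.exp_nat_mul]
      norm_num
      field_simp
      ring
    have h3 : Real.exp (2 / c₀ * k) ≤ Real.exp (C * k) :=
      Real.exp_le_exp.2 (mul_le_mul_of_nonneg_right hC2 (Nat.cast_nonneg k))
    calc 4 * (K : ℝ) ^ 2 ≤ 4 * (16 * (Real.exp (2 / c₀) * Real.exp (2 / c₀ * k))) := by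
          rw [← h2]
          linarith
      _ = (64 * Real.exp (2 / c₀)) * Real.exp (2 / c₀ * k) := by ring
      _ ≤ C * Real.exp (C * k) := mul_le_mul hC1 h3 (Real.exp_pos _).le hC0.le
  obtain ⟨X0, hX0⟩ := hMM K hK1
  obtain ⟨X1, hX1⟩ := growth K 1
  refine ⟨max X0 X1, fun x hx d hd hdle => ?_⟩
  have hxX0 : X0 ≤ x := (le_max_left _ _).trans hx
  obtain ⟨hx1, hR, hg⟩ := hX1 x ((le_max_right _ _).trans hx)
  have hx0 : 0 < x := by linarith
  have hRec : Real.log x * Real.log (Real.log x) ^ 2 *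
      Real.log (Real.log (Real.log (Real.log x))) / Real.log (Real.log (Real.log x)) ^ 2 = Rec x :=
    rfl
  rw [hRec] at hdle
  have hHD : ∀ h ∈ HS K d, (h : ℝ) ≤ c₀ * Rec x := by
    intro h hh
    have h1 : (h : ℝ) ≤ 4 * (K : ℝ) ^ 2 * d := by exact_mod_cast HS_le hh
    have hd0 : (0 : ℝ) ≤ d := Nat.cast_nonneg d
    calc (h : ℝ) ≤ 4 * (K : ℝ) ^ 2 * d := h1
      _ ≤ C * Real.exp (C * k) * d := mul_le_mul_of_nonneg_right hKC hd0
      _ ≤ C * Real.exp (C * k) * (c₀ / C * Real.exp (-(C * k)) * Rec x) :=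
          mul_le_mul_of_nonneg_left hdle (by positivity)
      _ = c₀ * Rec x * (Real.exp (C * k) * Real.exp (-(C * k))) := by
          field_simp
      _ = c₀ * Rec x := by rw [← Real.exp_add, add_neg_cancel, Real.exp_zero, mul_one]
  have hD0 : 0 ≤ c₀ * Rec x := by
    have : 0 < Rec x := by linarith
    positivity
  have hS := hX0 x hxX0 (HS K d) (HS_card (by omega)) hHD HS_adm
  set S := {m : ℕ | (m : ℝ) + c₀ * Rec x ≤ x ∧
        (∀ q : ℕ, q.Prime → m ≤ q → (q : ℝ) ≤ m + c₀ * Rec x → ∃ h ∈ HS K d, q = m + h) ∧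
        c₀ * Real.log K < (((HS K d).filter (fun h => (m + h).Prime)).card : ℝ)} with hSd
  set T := {n : ℕ | (Nat.nth Nat.Prime (n + k) : ℝ) ≤ x ∧
        (Nat.nth Nat.Prime (n + k) : ℝ) ≤ Nat.nth Nat.Prime n + C * Real.exp (C * k) * d ∧
        ∀ i < k, d ∣ Nat.nth Nat.Prime (n + i + 1) - Nat.nth Nat.Prime (n + i)} with hTd
  have hSfin : S.Finite := by
    apply Set.Finite.subset (Set.finite_Iic ⌊x⌋₊)
    intro m hm
    have h1 : (m : ℝ) + c₀ * Rec x ≤ x := hm.1
    exact Nat.le_floor (by linarith)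
  have hTfin : T.Finite := by
    apply Set.Finite.subset (Set.finite_Iic ⌊x⌋₊)
    intro n hn
    have h1 : (Nat.nth Nat.Prime (n + k) : ℝ) ≤ x := hn.1
    have h2 : n + k ≤ Nat.nth Nat.Prime (n + k) :=
      Nat.le_nth (fun hf => absurd hf Nat.infinite_setOfPred_prime)
    have h3 : (n : ℝ) ≤ x := le_trans (by exact_mod_cast (by omega)) h1
    exact Nat.le_floor h3
  have key : ∀ m : ℕ, ∃ p : ℕ × ℕ, m ∈ S → p.1 ∈ HS K d ∧ Nat.nth Nat.Prime p.2 = m + p.1 ∧
      p.2 ∈ T := by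
    intro m
    by_cases hm : m ∈ S
    · obtain ⟨hm1, hm2, hm3⟩ := hm
      have hk : k < ((HS K d).filter (fun h => (m + h).Prime)).card := by
        have : (k : ℝ) < (((HS K d).filter (fun h => (m + h).Prime)).card : ℝ) := by linarith
        exact_mod_cast this
      obtain ⟨h, hh, n, hn, hi⟩ := clus hHD hm2 hk
      refine ⟨(h, n), fun _ => ⟨hh, hn, ?_, ?_, ?_⟩⟩
      · obtain ⟨h', hh', e⟩ := hi k le_rfl
        have h1 := hHD h' hh'
        show (Nat.nth Nat.Prime (n + k) : ℝ) ≤ x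
        rw [e]
        push_cast
        linarith
      · obtain ⟨h', hh', e⟩ := hi k le_rfl
        show (Nat.nth Nat.Prime (n + k) : ℝ) ≤ Nat.nth Nat.Prime n + C * Real.exp (C * k) * d
        rw [e, hn]
        have h1 : (h' : ℝ) ≤ 4 * (K : ℝ) ^ 2 * d := by exact_mod_cast HS_le hh'
        have h2 : 4 * (K : ℝ) ^ 2 * d ≤ C * Real.exp (C * k) * d :=
          mul_le_mul_of_nonneg_right hKC (Nat.cast_nonneg d)
        have h3 : (0 : ℝ) ≤ h := Nat.cast_nonneg h
        push_cast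
        linarith
      · intro i hik
        show d ∣ Nat.nth Nat.Prime (n + i + 1) - Nat.nth Nat.Prime (n + i)
        obtain ⟨h1, hh1, e1⟩ := hi i hik.le
        obtain ⟨h2, hh2, e2⟩ := hi (i + 1) hik
        rw [← add_assoc] at e2
        rw [e1, e2, Nat.add_sub_add_left]
        exact Nat.dvd_sub (HS_dvd hh2) (HS_dvd hh1)
    · exact ⟨(0, 0), fun h => absurd h hm⟩
  choose g hg' using key
  -- counting
  have hcard : hSfin.toFinset.card ≤ K * hTfin.toFinset.card := by
    have h1 : hSfin.toFinset.card ≤ (HS K d ×ˢ hTfin.toFinset).card := by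
      apply card_le_card_of_injOn g
      · intro m hm
        have hm' := hg' m (hSfin.mem_toFinset.1 hm)
        exact mem_coe.2 (mem_product.2 ⟨hm'.1, hTfin.mem_toFinset.2 hm'.2.2⟩)
      · intro a ha b hb hab
        have h2 := (hg' a (hSfin.mem_toFinset.1 ha)).2.1
        have h3 := (hg' b (hSfin.mem_toFinset.1 hb)).2.1
        rw [hab, h3] at h2
        omega
    rwa [card_product, HS_card (by omega)] at h1
  have hSc : S.ncard = hSfin.toFinset.card := Set.ncard_eq_toFinset_card S hSfin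
  have hTc : T.ncard = hTfin.toFinset.card := Set.ncard_eq_toFinset_card T hTfin
  have h1 : (S.ncard : ℝ) ≤ K * (T.ncard : ℝ) := by
    rw [hSc, hTc]
    exact_mod_cast hcard
  have hK1r : (1 : ℝ) ≤ K := by exact_mod_cast hK1
  have hpos : 0 ≤ x ^ (1 - 1 / Real.log (Real.log x) ^ 2) := Real.rpow_nonneg hx0.le _
  have h3 : x ^ (1 - 1 / Real.log (Real.log x) ^ 2) * (K : ℝ) ≤
      x ^ (1 - 1 / Real.log (Real.log x) ^ 2) * (K : ℝ) ^ 2 := by
    apply mul_le_mul_of_nonneg_left _ hpos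
    nlinarith
  have h2 : x ^ (1 - 1 / Real.log (Real.log x) ^ 2) * (K : ℝ) ≤ (K : ℝ) * (T.ncard : ℝ) :=
    h3.trans ((hg.trans hS).trans h1)
  rw [mul_comm] at h2
  exact le_of_mul_le_mul_left h2 hK0

end Pool.Agent.Helper30.MT
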